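import Mathlib
import Pool.Agent.W593.IR.Stm3

set_option autoImplicit false

namespace Pool.Agent.W840.IR

open Finset Pool.Agent.W593.IR

theorem piece1 (w0 w1 w2 w3 w4 w5 u0 u1 u2 u3 u4 H0 H1 H2 H3 T A B : ℝ)
    (hw0 : 0 ≤ w0) (h21 : w2 ≤ w1) (h32 : w3 ≤ w2) (h43 : w4 ≤ w3) (hw4 : 0 ≤ w4)
    (hw2 : 0 ≤ w2) (hw3 : 0 ≤ w3)
    (hA : A = w1 + w2 + w3 + w4 + w5)
    (hB : B = w0 / 4 + w1 / 2 + w2 + w3 + w4 + w5)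
    (hTA : T ≤ A) (hTB : T ≤ B) (ha : 0 ≤ H0) (hb : H0 ≤ 1 / 2)
    (c0 : 1 / 2 * H0 ≤ u0) (c1 : 1 - H0 ≤ u1) (c2 : 2 - H1 ≤ u2) (c3 : 3 - H2 ≤ u3)
    (c4 : 4 - H3 ≤ u4) (s1 : H1 ≤ H0 + u1) (s2 : H2 ≤ H1 + u2) (s3 : H3 ≤ H2 + u3) :
    T ≤ w0 * u0 + w1 * u1 + w2 * u2 + w3 * u3 + w4 * u4 + w5 := by
  have e0 := mul_nonneg hw0 (sub_nonneg.2 c0)
  have e1 := mul_nonneg (sub_nonneg.2 h21) (sub_nonneg.2 c1)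
  have e2 := mul_nonneg (sub_nonneg.2 h32) (sub_nonneg.2 c2)
  have e3 := mul_nonneg (sub_nonneg.2 h43) (sub_nonneg.2 c3)
  have e4 := mul_nonneg hw4 (sub_nonneg.2 c4)
  have f1 := mul_nonneg hw2 (sub_nonneg.2 s1)
  have f2 := mul_nonneg hw3 (sub_nonneg.2 s2)
  have f3 := mul_nonneg hw4 (sub_nonneg.2 s3)
  have g1 := mul_nonneg (sub_nonneg.2 hb) (sub_nonneg.2 hTA)
  have g2 := mul_nonneg ha (sub_nonneg.2 hTB)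
  subst hA hB
  linarith

theorem piece2 (w0 w1 w2 w3 w4 w5 u0 u1 u2 u3 u4 H0 H1 H2 H3 T A B : ℝ)
    (hw0 : 0 ≤ w0) (h21 : w2 ≤ w1) (h32 : w3 ≤ w2) (h43 : w4 ≤ w3) (hw4 : 0 ≤ w4)
    (hw2 : 0 ≤ w2) (hw3 : 0 ≤ w3)
    (hA : A = w0 / 4 + w1 / 2 + w2 + w3 + w4 + w5)
    (hB : B = 8 / 27 * w0 + 4 / 9 * w1 + 2 / 3 * w2 + w3 + w4 + w5)
    (hTA : T ≤ A) (hTB : T ≤ B) (ha : 1 / 2 ≤ H0) (hb : H0 ≤ 8 / 9)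
    (c0 : 4 / 21 + 5 / 42 * H0 ≤ u0) (c1 : 4 / 7 ≤ u1 + 1 / 7 * H0) (c2 : 2 - H1 ≤ u2) (c3 : 3 - H2 ≤ u3)
    (c4 : 4 - H3 ≤ u4) (s1 : H1 ≤ H0 + u1) (s2 : H2 ≤ H1 + u2) (s3 : H3 ≤ H2 + u3) :
    T ≤ w0 * u0 + w1 * u1 + w2 * u2 + w3 * u3 + w4 * u4 + w5 := by
  have e0 := mul_nonneg hw0 (sub_nonneg.2 c0)
  have e1 := mul_nonneg (sub_nonneg.2 h21) (sub_nonneg.2 c1)
  have e2 := mul_nonneg (sub_nonneg.2 h32) (sub_nonneg.2 c2)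
  have e3 := mul_nonneg (sub_nonneg.2 h43) (sub_nonneg.2 c3)
  have e4 := mul_nonneg hw4 (sub_nonneg.2 c4)
  have f1 := mul_nonneg hw2 (sub_nonneg.2 s1)
  have f2 := mul_nonneg hw3 (sub_nonneg.2 s2)
  have f3 := mul_nonneg hw4 (sub_nonneg.2 s3)
  have g1 := mul_nonneg (sub_nonneg.2 hb) (sub_nonneg.2 hTA)
  have g2 := mul_nonneg (sub_nonneg.2 ha) (sub_nonneg.2 hTB)
  subst hA hB
  linarith

theorem piece3 (w0 w1 w2 w3 w4 w5 u0 u1 u2 u3 u4 H0 H1 H2 H3 T A B : ℝ)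
    (hw0 : 0 ≤ w0) (h21 : w2 ≤ w1) (h32 : w3 ≤ w2) (h43 : w4 ≤ w3) (hw4 : 0 ≤ w4)
    (hw2 : 0 ≤ w2) (hw3 : 0 ≤ w3)
    (hA : A = 8 / 27 * w0 + 4 / 9 * w1 + 2 / 3 * w2 + w3 + w4 + w5)
    (hB : B = 81 / 256 * w0 + 27 / 64 * w1 + 9 / 16 * w2 + 3 / 4 * w3 + w4 + w5)
    (hTA : T ≤ A) (hTB : T ≤ B) (ha : 8 / 9 ≤ H0) (hb : H0 ≤ 81 / 64)
    (c0 : 54 / 217 + 139 / 2604 * H0 ≤ u0) (c1 : 108 / 217 ≤ u1 + 13 / 217 * H0)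
    (c2 : 18 / 17 ≤ u2 + 5 / 17 * H1) (c3 : 3 - H2 ≤ u3)
    (c4 : 4 - H3 ≤ u4) (s1 : H1 ≤ H0 + u1) (s2 : H2 ≤ H1 + u2) (s3 : H3 ≤ H2 + u3) :
    T ≤ w0 * u0 + w1 * u1 + w2 * u2 + w3 * u3 + w4 * u4 + w5 := by
  have k1 : 0 ≤ w1 - (5 / 17 * (w2 - w3) + w3) := by linarith
  have k2 : 0 ≤ 5 / 17 * (w2 - w3) + w3 := by linarith
  have e0 := mul_nonneg hw0 (sub_nonneg.2 c0)
  have e1 := mul_nonneg k1 (sub_nonneg.2 c1)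
  have e2 := mul_nonneg (sub_nonneg.2 h32) (sub_nonneg.2 c2)
  have e3 := mul_nonneg (sub_nonneg.2 h43) (sub_nonneg.2 c3)
  have e4 := mul_nonneg hw4 (sub_nonneg.2 c4)
  have f1 := mul_nonneg k2 (sub_nonneg.2 s1)
  have f2 := mul_nonneg hw3 (sub_nonneg.2 s2)
  have f3 := mul_nonneg hw4 (sub_nonneg.2 s3)
  have g1 := mul_nonneg (sub_nonneg.2 hb) (sub_nonneg.2 hTA)
  have g2 := mul_nonneg (sub_nonneg.2 ha) (sub_nonneg.2 hTB)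
  subst hA hB
  linarith

theorem piece4 (w0 w1 w2 w3 w4 w5 u0 u1 u2 u3 u4 H0 H1 H2 H3 T A B : ℝ)
    (hw0 : 0 ≤ w0) (h21 : w2 ≤ w1) (h32 : w3 ≤ w2) (h43 : w4 ≤ w3) (hw4 : 0 ≤ w4)
    (hw2 : 0 ≤ w2) (hw3 : 0 ≤ w3)
    (hA : A = 81 / 256 * w0 + 27 / 64 * w1 + 9 / 16 * w2 + 3 / 4 * w3 + w4 + w5)
    (hB : B = 1024 / 3125 * w0 + 256 / 625 * w1 + 64 / 125 * w2 + 16 / 25 * w3 + 4 / 5 * w4 + w5)
    (hTA : T ≤ A) (hTB : T ≤ B) (ha : 81 / 64 ≤ H0) (hb : H0 ≤ 1024 / 625)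
    (c0 : 20736 / 74555 + 9019 / 298220 * H0 ≤ u0) (c1 : 6912 / 14911 ≤ u1 + 491 / 14911 * H0)
    (c2 : 576 / 721 ≤ u2 + 101 / 721 * H1) (c3 : 48 / 31 ≤ u3 + 11 / 31 * H2)
    (c4 : 4 - H3 ≤ u4) (s1 : H1 ≤ H0 + u1) (s2 : H2 ≤ H1 + u2) (s3 : H3 ≤ H2 + u3) :
    T ≤ w0 * u0 + w1 * u1 + w2 * u2 + w3 * u3 + w4 * u4 + w5 := by
  obtain ⟨d2, hd2⟩ : ∃ d2, d2 = 11 / 31 * (w3 - w4) + w4 := ⟨_, rfl⟩
  obtain ⟨d1, hd1⟩ : ∃ d1, d1 = 101 / 721 * (w2 - d2) + d2 := ⟨_, rfl⟩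
  have k2 : 0 ≤ d2 := by rw [hd2]; linarith
  have k2' : 0 ≤ w2 - d2 := by rw [hd2]; linarith
  have k1 : 0 ≤ d1 := by rw [hd1]; linarith
  have k1' : 0 ≤ w1 - d1 := by rw [hd1]; linarith
  have e0 := mul_nonneg hw0 (sub_nonneg.2 c0)
  have e1 := mul_nonneg k1' (sub_nonneg.2 c1)
  have e2 := mul_nonneg k2' (sub_nonneg.2 c2)
  have e3 := mul_nonneg (sub_nonneg.2 h43) (sub_nonneg.2 c3)
  have e4 := mul_nonneg hw4 (sub_nonneg.2 c4)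
  have f1 := mul_nonneg k1 (sub_nonneg.2 s1)
  have f2 := mul_nonneg k2 (sub_nonneg.2 s2)
  have f3 := mul_nonneg hw4 (sub_nonneg.2 s3)
  have g1 := mul_nonneg (sub_nonneg.2 hb) (sub_nonneg.2 hTA)
  have g2 := mul_nonneg (sub_nonneg.2 ha) (sub_nonneg.2 hTB)
  subst hd1 hd2 hA hB
  linarith

theorem fin5 : S_FIN5 := by
  intro hCHJ hCH0 hSM hPH ρ hρ1 hρ2 u H hS
  obtain ⟨p2, p3, p4⟩ := hPH ρ hρ1 hρ2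
  obtain ⟨q1, q2, q3, q4, q5, q6⟩ := hCHJ u H hS
  obtain ⟨r1, r2, r3, r4⟩ := hCH0 5 (Or.inr rfl) u H hS
  have sm := hSM 5 (Or.inr rfl) u H hS
  have sm1 := sm 1 (by norm_num) (by norm_num)
  have sm2 := sm 2 (by norm_num) (by norm_num)
  have sm3 := sm 3 (by norm_num) (by norm_num)
  have sm4 := sm 4 (by norm_num) (by norm_num)
  have uk := hS.uk
  have t1 := hS.st 0 (by norm_num)
  have t2 := hS.st 1 (by norm_num)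
  have t3 := hS.st 2 (by norm_num)
  have t4 := hS.st 3 (by norm_num)
  have a0 := hS.h0 0 (by norm_num)
  have a1 := hS.h0 1 (by norm_num)
  have a2 := hS.h0 2 (by norm_num)
  have a3 := hS.h0 3 (by norm_num)
  have a4 := hS.h0 4 (by norm_num)
  have b0 := hS.h1 0 (by norm_num)
  norm_num at sm1 sm2 sm3 sm4 t1 t2 t3 t4 a0 a1 a2 a3 a4 b0
  have hρ0 : 0 ≤ ρ := by linarith
  have ht0 : 0 ≤ 1 - ρ := by linarith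
  set T : ℝ := min (1 - ρ ^ 5) ((1 - ρ / 5) ^ 5) with hT
  have hT1 : T ≤ 1 - ρ ^ 5 := min_le_left _ _
  have hT2 : T ≤ (1 - ρ / 5) ^ 5 := min_le_right _ _
  obtain ⟨w0, hw0⟩ : ∃ w0, w0 = ρ ^ 5 := ⟨_, rfl⟩
  obtain ⟨w1, hw1⟩ : ∃ w1, w1 = 5 * (1 - ρ) * ρ ^ 4 := ⟨_, rfl⟩
  obtain ⟨w2, hw2⟩ : ∃ w2, w2 = 10 * (1 - ρ) ^ 2 * ρ ^ 3 := ⟨_, rfl⟩
  obtain ⟨w3, hw3⟩ : ∃ w3, w3 = 10 * (1 - ρ) ^ 3 * ρ ^ 2 := ⟨_, rfl⟩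
  obtain ⟨w4, hw4⟩ : ∃ w4, w4 = 5 * (1 - ρ) ^ 4 * ρ := ⟨_, rfl⟩
  obtain ⟨w5, hw5⟩ : ∃ w5, w5 = (1 - ρ) ^ 5 := ⟨_, rfl⟩
  have hc : (∑ j ∈ range (5 + 1), ((5 : ℕ).choose j : ℝ) * (1 - ρ) ^ j * ρ ^ (5 - j) * u j) =
      w0 * u 0 + w1 * u 1 + w2 * u 2 + w3 * u 3 + w4 * u 4 + w5 := by
    have c1 : (5 : ℕ).choose 1 = 5 := by decide
    have c2 : (5 : ℕ).choose 2 = 10 := by decide
    have c3 : (5 : ℕ).choose 3 = 10 := by decide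
    have c4 : (5 : ℕ).choose 4 = 5 := by decide
    simp only [Finset.sum_range_succ, Finset.sum_range_zero, Nat.choose_zero_right, c1, c2, c3, c4,
      Nat.choose_self, uk, hw0, hw1, hw2, hw3, hw4, hw5]
    norm_num
  have hP : ∀ m : ℕ, Ph 5 m ρ = w0 * (if m ≤ 0 then 1 else (1 - 1 / (m : ℝ)) ^ (m - 0)) +
      w1 * (if m ≤ 1 then 1 else (1 - 1 / (m : ℝ)) ^ (m - 1)) +
      w2 * (if m ≤ 2 then 1 else (1 - 1 / (m : ℝ)) ^ (m - 2)) +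
      w3 * (if m ≤ 3 then 1 else (1 - 1 / (m : ℝ)) ^ (m - 3)) +
      w4 * (if m ≤ 4 then 1 else (1 - 1 / (m : ℝ)) ^ (m - 4)) +
      w5 * (if m ≤ 5 then 1 else (1 - 1 / (m : ℝ)) ^ (m - 5)) := by
    intro m
    have c1 : (5 : ℕ).choose 1 = 5 := by decide
    have c2 : (5 : ℕ).choose 2 = 10 := by decide
    have c3 : (5 : ℕ).choose 3 = 10 := by decide
    have c4 : (5 : ℕ).choose 4 = 5 := by decide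
    unfold Ph
    simp only [Finset.sum_range_succ, Finset.sum_range_zero, Nat.choose_zero_right, c1, c2, c3, c4,
      Nat.choose_self, hw0, hw1, hw2, hw3, hw4, hw5]
    norm_num
  have P2 : Ph 5 2 ρ = w0 / 4 + w1 / 2 + w2 + w3 + w4 + w5 := by
    rw [hP]; norm_num; ring
  have P3 : Ph 5 3 ρ = 8 / 27 * w0 + 4 / 9 * w1 + 2 / 3 * w2 + w3 + w4 + w5 := by
    rw [hP]; norm_num; ring
  have P4 : Ph 5 4 ρ = 81 / 256 * w0 + 27 / 64 * w1 + 9 / 16 * w2 + 3 / 4 * w3 + w4 + w5 := by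
    rw [hP]; norm_num; ring
  have P1 : 1 - ρ ^ 5 = w1 + w2 + w3 + w4 + w5 := by
    rw [hw1, hw2, hw3, hw4, hw5]; ring
  have P5 : (1 - ρ / 5) ^ 5 = 1024 / 3125 * w0 + 256 / 625 * w1 + 64 / 125 * w2 + 16 / 25 * w3 +
      4 / 5 * w4 + w5 := by
    rw [hw0, hw1, hw2, hw3, hw4, hw5]; ring
  have n0 : 0 ≤ w0 := by rw [hw0]; positivity
  have n1 : 0 ≤ w1 := by rw [hw1]; positivity
  have n2 : 0 ≤ w2 := by rw [hw2]; positivity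
  have n3 : 0 ≤ w3 := by rw [hw3]; positivity
  have n4 : 0 ≤ w4 := by rw [hw4]; positivity
  have n5 : 0 ≤ w5 := by rw [hw5]; positivity
  have h21 : w2 ≤ w1 := by
    have e : w1 - w2 = 5 * (1 - ρ) * ρ ^ 3 * (ρ - 2 * (1 - ρ)) := by rw [hw1, hw2]; ring
    have : 0 ≤ 5 * (1 - ρ) * ρ ^ 3 * (ρ - 2 * (1 - ρ)) := by
      apply mul_nonneg (by positivity); linarith
    linarith
  have h32 : w3 ≤ w2 := by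
    have e : w2 - w3 = 10 * (1 - ρ) ^ 2 * ρ ^ 2 * (ρ - (1 - ρ)) := by rw [hw2, hw3]; ring
    have : 0 ≤ 10 * (1 - ρ) ^ 2 * ρ ^ 2 * (ρ - (1 - ρ)) := by
      apply mul_nonneg (by positivity); linarith
    linarith
  have h43 : w4 ≤ w3 := by
    have e : w3 - w4 = 5 * (1 - ρ) ^ 3 * ρ * (2 * ρ - (1 - ρ)) := by rw [hw3, hw4]; ring
    have : 0 ≤ 5 * (1 - ρ) ^ 3 * ρ * (2 * ρ - (1 - ρ)) := by
      apply mul_nonneg (by positivity); linarith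
    linarith
  have v1 : 1 - H 0 ≤ u 1 := by linarith
  have v2 : 2 - H 1 ≤ u 2 := by linarith
  have v3 : 3 - H 2 ≤ u 3 := by linarith
  have v4 : 4 - H 3 ≤ u 4 := by linarith
  clear_value T
  push_cast at hc ⊢
  rw [hc, ← hT]
  rw [P2] at p2
  rw [P3] at p3
  rw [P4] at p4
  rw [P1] at hT1
  rw [P5] at hT2
  rcases le_total (H 0) (1 / 2) with h | h
  · exact piece1 w0 w1 w2 w3 w4 w5 (u 0) (u 1) (u 2) (u 3) (u 4) (H 0) (H 1) (H 2) (H 3) T _ _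
      n0 h21 h32 h43 n4 n2 n3 rfl rfl hT1 p2 a0 h (r1 h) v1 v2 v3 v4 t1 t2 t3
  rcases le_total (H 0) (8 / 9) with h' | h'
  · exact piece2 w0 w1 w2 w3 w4 w5 (u 0) (u 1) (u 2) (u 3) (u 4) (H 0) (H 1) (H 2) (H 3) T _ _
      n0 h21 h32 h43 n4 n2 n3 rfl rfl p2 p3 h h' (r2 h h') q1 v2 v3 v4 t1 t2 t3
  rcases le_total (H 0) (81 / 64) with h'' | h''
  · exact piece3 w0 w1 w2 w3 w4 w5 (u 0) (u 1) (u 2) (u 3) (u 4) (H 0) (H 1) (H 2) (H 3) T _ _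
      n0 h21 h32 h43 n4 n2 n3 rfl rfl p3 p4 h' h'' (r3 h' h'') q2 q4 v3 v4 t1 t2 t3
  rcases le_total (H 0) (1024 / 625) with h3 | h3
  · exact piece4 w0 w1 w2 w3 w4 w5 (u 0) (u 1) (u 2) (u 3) (u 4) (H 0) (H 1) (H 2) (H 3) T _ _
      n0 h21 h32 h43 n4 n2 n3 rfl rfl p4 hT2 h'' h3 (r4 rfl h'' h3) q3 q5 q6 v4 t1 t2 t3
  · have m0 := mul_nonneg n0 (sub_nonneg.2 (show (1024 / 3125 : ℝ) ≤ u 0 by linarith))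
    have m1 := mul_nonneg n1 (sub_nonneg.2 sm1)
    have m2 := mul_nonneg n2 (sub_nonneg.2 sm2)
    have m3 := mul_nonneg n3 (sub_nonneg.2 sm3)
    have m4 := mul_nonneg n4 (sub_nonneg.2 sm4)
    linarith

end Pool.Agent.W840.IR
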